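import Mathlib

/-! nonnegative representations in cubic orders -/

set_option autoImplicit false

open Filter Topology

namespace Pool.Agent.X86.PF

/-- some power of a non-real complex number has negative real part -/
lemma exists_neg {w : ℂ} (hw : w.im ≠ 0) : ∃ n : ℕ, 1 ≤ n ∧ (w ^ n).re < 0 := by
  by_contra hcon
  push Not at hcon
  have hw0 : w ≠ 0 := fun h => hw (by rw [h]; rfl)
  have key : ∀ k : ℕ, 2 ^ k * (w.im ^ 2 / Complex.normSq w) ≤
      (w ^ (2 ^ k)).im ^ 2 / Complex.normSq (w ^ (2 ^ k)) := by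
    intro k
    induction k with
    | zero => simp
    | succ k ih =>
      set a := w ^ (2 ^ k) with ha
      have ha0 : a ≠ 0 := pow_ne_zero _ hw0
      have e : w ^ (2 ^ (k + 1)) = a ^ 2 := by rw [ha, ← pow_mul, pow_succ]
      have h1 : 0 ≤ (a ^ 2).re := by rw [← e]; exact hcon _ Nat.one_le_two_pow
      have h2 : (a ^ 2).re = a.re ^ 2 - a.im ^ 2 := by rw [pow_two, Complex.mul_re]; ring
      have h3 : (a ^ 2).im = 2 * a.re * a.im := by rw [pow_two, Complex.mul_im]; ring
      have hN : 0 < Complex.normSq a := Complex.normSq_pos.mpr ha0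
      have h4 : Complex.normSq a = a.re ^ 2 + a.im ^ 2 := by rw [Complex.normSq_apply]; ring
      rw [e, map_pow, h3]
      have h5 : 2 * (a.im ^ 2 / Complex.normSq a) ≤ (2 * a.re * a.im) ^ 2 / Complex.normSq a ^ 2 := by
        rw [mul_div_assoc', div_le_div_iff₀ hN (by positivity)]
        have h6 : Complex.normSq a ≤ 2 * a.re ^ 2 := by rw [h4]; linarith
        have h7 : 0 ≤ 2 * a.im ^ 2 * Complex.normSq a := by positivity
        nlinarith
      calc (2:ℝ) ^ (k + 1) * (w.im ^ 2 / Complex.normSq w)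
          = 2 * (2 ^ k * (w.im ^ 2 / Complex.normSq w)) := by ring
        _ ≤ 2 * (a.im ^ 2 / Complex.normSq a) := by gcongr
        _ ≤ _ := h5
  have hN : 0 < Complex.normSq w := Complex.normSq_pos.mpr hw0
  have hq : 0 < w.im ^ 2 / Complex.normSq w := by positivity
  obtain ⟨k, hk⟩ := pow_unbounded_of_one_lt (w.im ^ 2 / Complex.normSq w)⁻¹ (one_lt_two (α := ℝ))
  have h1 : 1 < 2 ^ k * (w.im ^ 2 / Complex.normSq w) := by
    rw [← inv_mul_cancel₀ hq.ne']
    gcongr
  have h2 : (w ^ (2 ^ k)).im ^ 2 / Complex.normSq (w ^ (2 ^ k)) ≤ 1 := by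
    have : w ^ (2 ^ k) ≠ 0 := pow_ne_zero _ hw0
    rw [div_le_one (Complex.normSq_pos.mpr this), Complex.normSq_apply]
    nlinarith [mul_self_nonneg (w ^ (2 ^ k)).re]
  linarith [key k]

/-- a positive relation -/
lemma exists_pos_rel {w : ℂ} (hw : w.im ≠ 0) : ∃ (J : ℕ) (t : ℕ → ℝ), 3 ≤ J ∧ (∀ j, 0 < t j) ∧
    ∑ j ∈ Finset.range J, (t j : ℂ) * w ^ j = 0 := by
  obtain ⟨n, hn, hre⟩ := exists_neg hw
  have hw0 : w ≠ 0 := fun h => hw (by rw [h]; rfl)
  set W := w ^ n with hW
  have hW0 : W ≠ 0 := pow_ne_zero _ hw0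
  refine ⟨n + n + n, fun j => if j < n then Complex.normSq W else if j < n + n then -2 * W.re else 1,
    by omega, ?_, ?_⟩
  · intro j
    simp only
    split_ifs
    · exact Complex.normSq_pos.mpr hW0
    · linarith
    · exact one_pos
  · rw [Finset.sum_range_add, Finset.sum_range_add]
    have e1 : ∑ x ∈ Finset.range n, (((if x < n then Complex.normSq W else
        if x < n + n then -2 * W.re else 1 : ℝ)) : ℂ) * w ^ x =
        (Complex.normSq W : ℂ) * ∑ x ∈ Finset.range n, w ^ x := by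
      rw [Finset.mul_sum]
      refine Finset.sum_congr rfl fun x hx => ?_
      rw [if_pos (Finset.mem_range.mp hx)]
    have e2 : ∑ x ∈ Finset.range n, (((if n + x < n then Complex.normSq W else
        if n + x < n + n then -2 * W.re else 1 : ℝ)) : ℂ) * w ^ (n + x) =
        (-2 * W.re : ℂ) * W * ∑ x ∈ Finset.range n, w ^ x := by
      rw [Finset.mul_sum]
      refine Finset.sum_congr rfl fun x hx => ?_
      have := Finset.mem_range.mp hx
      rw [if_neg (by omega), if_pos (by omega), pow_add, ← hW]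
      push_cast; ring
    have e3 : ∑ x ∈ Finset.range n, (((if n + n + x < n then Complex.normSq W else
        if n + n + x < n + n then -2 * W.re else 1 : ℝ)) : ℂ) * w ^ (n + n + x) =
        W * W * ∑ x ∈ Finset.range n, w ^ x := by
      rw [Finset.mul_sum]
      refine Finset.sum_congr rfl fun x hx => ?_
      rw [if_neg (by omega), if_neg (by omega), pow_add, pow_add, ← hW]
      push_cast; ring
    rw [e1, e2, e3, ← add_mul, ← add_mul]
    have e4 : (Complex.normSq W : ℂ) + -2 * (W.re : ℂ) * W + W * W = 0 := by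
      have h1 : (Complex.normSq W : ℂ) = W * (starRingEnd ℂ) W := (Complex.mul_conj W).symm
      have h2 : (2 * W.re : ℂ) = W + (starRingEnd ℂ) W := by rw [Complex.add_conj]; push_cast; ring
      linear_combination h1 - W * h2
    rw [e4, zero_mul]

variable (a b c : ℤ)

/-- multiplication by `β` on coordinates with respect to `1, β, β²` -/
def M (y : Fin 3 → ℤ) : Fin 3 → ℤ := ![c * y 2, y 0 + b * y 2, y 1 + a * y 2]

/-- value at a real number -/
def vr (β : ℝ) (y : Fin 3 → ℤ) : ℝ := y 0 + y 1 * β + y 2 * β ^ 2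

/-- value at a complex number -/
def vc (w : ℂ) (y : Fin 3 → ℤ) : ℂ := y 0 + y 1 * w + y 2 * w ^ 2

/-- coordinates of `β^j` -/
def pw (j : ℕ) : Fin 3 → ℤ := (M a b c)^[j] ![1, 0, 0]

variable {a b c} {β : ℝ} {w : ℂ}

lemma vr_M (hβ : β ^ 3 = a * β ^ 2 + b * β + c) (y : Fin 3 → ℤ) : vr β (M a b c y) = β * vr β y := by
  simp only [vr, M, Matrix.cons_val_zero, Matrix.cons_val_one, Matrix.cons_val]
  push_cast
  linear_combination (-(y 2 : ℝ)) * hβ

lemma vc_M (hw : w ^ 3 = a * w ^ 2 + b * w + c) (y : Fin 3 → ℤ) : vc w (M a b c y) = w * vc w y := by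
  simp only [vc, M, Matrix.cons_val_zero, Matrix.cons_val_one, Matrix.cons_val]
  push_cast
  linear_combination (-(y 2 : ℂ)) * hw

lemma vr_iter (hβ : β ^ 3 = a * β ^ 2 + b * β + c) (y : Fin 3 → ℤ) (k : ℕ) :
    vr β ((M a b c)^[k] y) = β ^ k * vr β y := by
  induction k with
  | zero => simp
  | succ k ih => rw [Function.iterate_succ_apply', vr_M hβ, ih]; ring

lemma vc_iter (hw : w ^ 3 = a * w ^ 2 + b * w + c) (y : Fin 3 → ℤ) (k : ℕ) :
    vc w ((M a b c)^[k] y) = w ^ k * vc w y := by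
  induction k with
  | zero => simp
  | succ k ih => rw [Function.iterate_succ_apply', vc_M hw, ih]; ring

lemma vr_pw (hβ : β ^ 3 = a * β ^ 2 + b * β + c) (j : ℕ) : vr β (pw a b c j) = β ^ j := by
  unfold pw
  rw [vr_iter hβ]
  simp [vr]

lemma vc_pw (hw : w ^ 3 = a * w ^ 2 + b * w + c) (j : ℕ) : vc w (pw a b c j) = w ^ j := by
  unfold pw
  rw [vc_iter hw]
  simp [vc]

/-- uniqueness of real coordinates -/
lemma unique (hw : w.im ≠ 0) {x0 x1 x2 : ℝ} (h1 : x0 + x1 * β + x2 * β ^ 2 = 0)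
    (h2 : (x0 : ℂ) + x1 * w + x2 * w ^ 2 = 0) : x0 = 0 ∧ x1 = 0 ∧ x2 = 0 := by
  have hne : w - (β : ℂ) ≠ 0 := by
    intro h
    apply hw
    have : w = (β : ℂ) := sub_eq_zero.mp h
    rw [this]; exact Complex.ofReal_im β
  have h1' : (x0 : ℂ) + x1 * (β : ℂ) + x2 * (β : ℂ) ^ 2 = 0 := by exact_mod_cast congrArg Complex.ofReal h1
  have h3 : (w - (β : ℂ)) * ((x1 : ℂ) + x2 * (w + β)) = 0 := by linear_combination h2 - h1'
  have h4 : (x1 : ℂ) + x2 * (w + β) = 0 := (mul_eq_zero.mp h3).resolve_left hne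
  have h5 := congrArg Complex.im h4
  simp at h5
  have h6 : x2 = 0 := by tauto
  rw [h6] at h4
  have h7 : (x1 : ℂ) = 0 := by simpa using h4
  have h8 : x1 = 0 := by exact_mod_cast h7
  refine ⟨?_, h8, h6⟩
  rw [h6, h8] at h1
  simpa using h1

end Pool.Agent.X86.PF
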