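import Pool.Agent.X86.PF.Main

set_option autoImplicit false

open Filter Topology

namespace Pool.Agent.X86.PF

variable {a b c : ℤ} {β : ℝ} {w : ℂ}

/-- `x` has a finite `β`-representation `x = ∑_{j=1}^k a_j β^{-j}` with digits in `{0,…,m}`
(the digit with index `j : ℕ` is `a_{j+1}`). -/
def Rep (β : ℝ) (m : ℕ) (x : ℝ) : Prop :=
  ∃ (k : ℕ) (d : ℕ → ℕ), (∀ j, d j ≤ m) ∧ x = ∑ j ∈ Finset.range k, (d j : ℝ) / β ^ (j + 1)

lemma Rep.mono {m m' : ℕ} {x : ℝ} (h : Rep β m x) (hm : m ≤ m') : Rep β m' x := by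
  obtain ⟨k, d, hd, hx⟩ := h
  exact ⟨k, d, fun j => (hd j).trans hm, hx⟩

lemma Rep.step (hβ0 : 0 < β) {m d : ℕ} (hd : d ≤ m) {x : ℝ} (h : Rep β m (β * x - d)) : Rep β m x := by
  obtain ⟨k, e, he, hx⟩ := h
  refine ⟨k + 1, fun j => if j = 0 then d else e (j - 1), ?_, ?_⟩
  · intro j
    simp only
    split_ifs
    · exact hd
    · exact he _
  · rw [Finset.sum_range_succ']
    have h1 : ∑ j ∈ Finset.range k, (((if j + 1 = 0 then d else e (j + 1 - 1) : ℕ)) : ℝ) / β ^ (j + 1 + 1)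
        = (∑ j ∈ Finset.range k, (e j : ℝ) / β ^ (j + 1)) / β := by
      rw [Finset.sum_div]
      refine Finset.sum_congr rfl fun j _ => ?_
      rw [if_neg (by omega), Nat.add_sub_cancel, pow_succ β (j + 1), div_div]
    rw [h1, ← hx]
    simp only [if_true]
    field_simp
    ring

lemma rep_of_cone (hβ1 : 1 < β) (hβ : β ^ 3 = a * β ^ 2 + b * β + c)
    (hw : w ^ 3 = a * w ^ 2 + b * w + c) (him : w.im ≠ 0) (hw1 : ‖w‖ < 1) (y : Fin 3 → ℤ)
    (hy : 0 ≤ vr β y) : ∃ m, Rep β m (vr β y) := by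
  have hβ0 : 0 < β := by linarith
  rcases eq_or_lt_of_le hy with h | h
  · exact ⟨0, 0, fun _ => 0, fun _ => le_rfl, by simp [← h]⟩
  obtain ⟨J, hJ⟩ := main_cone hβ1 hβ hw him hw1
  obtain ⟨k, ⟨n, hn⟩, hkJ⟩ := ((hJ y h).and (eventually_ge_atTop J)).exists
  refine ⟨∑ j ∈ Finset.range J, n j, k, fun p => if k - 1 - p < J then n (k - 1 - p) else 0, ?_, ?_⟩
  · intro p
    simp only
    split_ifs with h1
    · exact Finset.single_le_sum (f := n) (fun _ _ => Nat.zero_le _) (Finset.mem_range.mpr h1)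
    · exact Nat.zero_le _
  · rw [← Finset.sum_range_reflect]
    have h1 : ∀ j ∈ Finset.range k, (((if k - 1 - (k - 1 - j) < J then n (k - 1 - (k - 1 - j)) else 0 : ℕ)) : ℝ)
        / β ^ (k - 1 - j + 1) = (if j < J then (n j : ℝ) * β ^ j else 0) / β ^ k := by
      intro j hj
      rw [Finset.mem_range] at hj
      have e1 : k - 1 - (k - 1 - j) = j := by omega
      rw [e1]
      by_cases hjJ : j < J
      · rw [if_pos hjJ, if_pos hjJ, div_eq_div_iff (by positivity) (by positivity), mul_assoc,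
          ← pow_add]
        congr 2
        omega
      · rw [if_neg hjJ, if_neg hjJ]; simp
    rw [Finset.sum_congr rfl h1, ← Finset.sum_div]
    have h2 : ∑ j ∈ Finset.range k, (if j < J then (n j : ℝ) * β ^ j else 0) =
        ∑ j ∈ Finset.range J, (n j : ℝ) * β ^ j := by
      rw [← Finset.sum_subset (Finset.range_subset_range.mpr hkJ)]
      · refine Finset.sum_congr rfl fun j hj => ?_
        rw [if_pos (Finset.mem_range.mp hj)]
      · intro j _ hj
        rw [Finset.mem_range] at hj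
        rw [if_neg hj]
    rw [h2, hn]
    field_simp

lemma fin_set (him : w.im ≠ 0) (hβ1 : 1 < β) (C : ℝ) :
    {y : Fin 3 → ℤ | 0 ≤ vr β y ∧ vr β y < 1 ∧ ‖vc w y‖ ≤ C}.Finite := by
  have hβ0 : 0 < β := by linarith
  have hne : w - (β : ℂ) ≠ 0 := by
    intro h
    apply him
    have : w = (β : ℂ) := sub_eq_zero.mp h
    rw [this]; exact Complex.ofReal_im β
  have hn : 0 < ‖w - (β:ℂ)‖ := norm_pos_iff.mpr hne
  have hi : 0 < |w.im| := abs_pos.mpr him
  set A : ℝ := (C + 1) / ‖w - (β:ℂ)‖ with hA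
  set B2 : ℝ := A / |w.im| with hB2
  set B1 : ℝ := A + B2 * ‖w + (β:ℂ)‖ with hB1
  set B0 : ℝ := 1 + B1 * β + B2 * β ^ 2 with hB0
  obtain ⟨N, hN⟩ := exists_nat_ge (max B0 (max B1 B2))
  have hfin : (Set.Icc (fun _ : Fin 3 => -(N:ℤ)) (fun _ => (N:ℤ))).Finite := Set.finite_Icc _ _
  refine hfin.subset ?_
  rintro y ⟨h0, h1, h2⟩
  have e1 : vc w y - (vr β y : ℂ) = (w - β) * (y 1 + y 2 * (w + β)) := by
    unfold vc vr; push_cast; ring
  have h3 : ‖(y 1 : ℂ) + y 2 * (w + β)‖ ≤ A := by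
    rw [hA, le_div_iff₀ hn, mul_comm, ← norm_mul, ← e1]
    refine (norm_sub_le _ _).trans ?_
    have : ‖(vr β y : ℂ)‖ = vr β y := by rw [Complex.norm_real, Real.norm_of_nonneg h0]
    rw [this]; linarith
  have h4 : |(y 2 : ℝ)| ≤ B2 := by
    rw [hB2, le_div_iff₀ hi, ← abs_mul]
    refine le_trans ?_ h3
    have : ((y 1 : ℂ) + y 2 * (w + β)).im = y 2 * w.im := by simp
    rw [← this]
    exact Complex.abs_im_le_norm _
  have h5 : |(y 1 : ℝ)| ≤ B1 := by
    have e2 : (y 1 : ℂ) = ((y 1 : ℂ) + y 2 * (w + β)) - y 2 * (w + β) := by ring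
    have e3 : |(y 1 : ℝ)| = ‖(y 1 : ℂ)‖ := by
      have : (y 1 : ℂ) = ((y 1 : ℝ) : ℂ) := by push_cast; rfl
      rw [this, Complex.norm_real, Real.norm_eq_abs]
    rw [e3, e2]
    refine (norm_sub_le _ _).trans ?_
    rw [norm_mul, hB1]
    have e4 : ‖(y 2 : ℂ)‖ = |(y 2 : ℝ)| := by
      have : (y 2 : ℂ) = ((y 2 : ℝ) : ℂ) := by push_cast; rfl
      rw [this, Complex.norm_real, Real.norm_eq_abs]
    rw [e4]
    gcongr
  have h6 : |(y 0 : ℝ)| ≤ B0 := by
    have e2 : (y 0 : ℝ) = vr β y - y 1 * β - y 2 * β ^ 2 := by unfold vr; ring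
    rw [e2]
    have f1 : |(y 1 : ℝ) * β| ≤ B1 * β := by rw [abs_mul, abs_of_pos hβ0]; gcongr
    have f2 : |(y 2 : ℝ) * β ^ 2| ≤ B2 * β ^ 2 := by
      rw [abs_mul, abs_of_pos (by positivity : 0 < β ^ 2)]; gcongr
    rw [abs_le] at f1 f2 ⊢
    constructor <;> linarith [f1.1, f1.2, f2.1, f2.2]
  have hb : ∀ i : Fin 3, |y i| ≤ (N:ℤ) := by
    intro i
    have : |(y i : ℝ)| ≤ N := by
      fin_cases i
      · exact h6.trans ((le_max_left _ _).trans hN)
      · exact h5.trans ((le_max_left _ _).trans ((le_max_right _ _).trans hN))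
      · exact h4.trans ((le_max_right _ _).trans ((le_max_right _ _).trans hN))
    exact_mod_cast this
  constructor
  · intro i; exact (abs_le.mp (hb i)).1
  · intro i; exact (abs_le.mp (hb i)).2

/-- the main theorem in coordinates -/
theorem main (hβ1 : 1 < β) (hβ : β ^ 3 = a * β ^ 2 + b * β + c)
    (hw : w ^ 3 = a * w ^ 2 + b * w + c) (him : w.im ≠ 0) (hw1 : ‖w‖ < 1) :
    ∃ m, ∀ y : Fin 3 → ℤ, 0 ≤ vr β y → vr β y < 1 → Rep β m (vr β y) := by
  classical
  have hβ0 : 0 < β := by linarith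
  have hw0 : w ≠ 0 := fun h => him (by rw [h]; rfl)
  set r : ℝ := ‖w‖ with hr
  have hr0 : 0 < r := norm_pos_iff.mpr hw0
  set D : ℕ := ⌊β⌋₊ with hD
  set Q : ℝ := D / (1 - r) with hQ
  have hQ' : Q * (1 - r) = D := by rw [hQ]; field_simp [(by linarith : (1 - r) ≠ 0)]
  -- uniform bound on the finite set
  have hfin := fin_set (w := w) (β := β) him hβ1 (1 + Q)
  choose g hg using fun (y : Fin 3 → ℤ) (hy : 0 ≤ vr β y) => rep_of_cone hβ1 hβ hw him hw1 y hy
  set G : (Fin 3 → ℤ) → ℕ := fun y => if h : 0 ≤ vr β y then g y h else 0 with hG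
  obtain ⟨m0, hm0⟩ := (hfin.image G).bddAbove
  refine ⟨max m0 D, ?_⟩
  have base : ∀ y : Fin 3 → ℤ, 0 ≤ vr β y → vr β y < 1 → ‖vc w y‖ ≤ 1 + Q →
      Rep β (max m0 D) (vr β y) := by
    intro y h0 h1 h2
    have h3 : G y ≤ m0 := hm0 ⟨y, ⟨h0, h1, h2⟩, rfl⟩
    have h4 : G y = g y h0 := by simp [hG, h0]
    rw [h4] at h3
    exact (hg y h0).mono (h3.trans (le_max_left _ _))
  have main : ∀ k : ℕ, ∀ y : Fin 3 → ℤ, 0 ≤ vr β y → vr β y < 1 → ‖vc w y‖ ≤ (r⁻¹) ^ k + Q →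
      Rep β (max m0 D) (vr β y) := by
    intro k
    induction k with
    | zero => intro y h0 h1 h2; exact base y h0 h1 (by simpa using h2)
    | succ k ih =>
      intro y h0 h1 h2
      set d : ℕ := ⌊β * vr β y⌋₊ with hd
      have hdv : 0 ≤ β * vr β y := by positivity
      have hdD : d ≤ D := Nat.floor_le_floor (by nlinarith)
      set y' : Fin 3 → ℤ := fun i => M a b c y i - (if i = 0 then (d:ℤ) else 0) with hy'
      have e1 : vr β y' = β * vr β y - d := by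
        rw [← vr_M hβ]
        simp only [hy', vr]
        simp
        ring
      have e2 : vc w y' = w * vc w y - d := by
        rw [← vc_M hw]
        simp only [hy', vc]
        simp
        ring
      have h3 := Nat.floor_le hdv
      have h4 := Nat.lt_floor_add_one (β * vr β y)
      have h5 := ih y' (by rw [e1]; linarith) (by rw [e1]; linarith) (by
        rw [e2]
        refine (norm_sub_le _ _).trans ?_
        rw [norm_mul, ← hr]
        have e3 : ‖(d : ℂ)‖ = d := by simp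
        rw [e3]
        have h6 : r * ‖vc w y‖ ≤ r * ((r⁻¹) ^ (k + 1) + Q) := by gcongr
        have h7 : r * ((r⁻¹) ^ (k + 1) + Q) = (r⁻¹) ^ k + r * Q := by
          rw [pow_succ]; field_simp
        have h8 : (d:ℝ) ≤ D := by exact_mod_cast hdD
        nlinarith)
      rw [e1] at h5
      exact Rep.step hβ0 (hdD.trans (le_max_right _ _)) h5
  intro y h0 h1
  have h1r : 1 < r⁻¹ := (one_lt_inv₀ hr0).mpr hw1
  obtain ⟨k, hk⟩ := pow_unbounded_of_one_lt ‖vc w y‖ h1r
  have hQ0 : 0 ≤ Q := by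
    rw [hQ]; apply div_nonneg (Nat.cast_nonneg _); linarith
  exact main k y h0 h1 (by linarith)

end Pool.Agent.X86.PF
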