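import Pool.Agent.X86.PF.Cone

set_option autoImplicit false

open Filter Topology

namespace Pool.Agent.X86.PF

variable {a b c : ℤ} {β : ℝ} {w : ℂ}

/-- Integer rounding. -/
lemma rounding (hβ : β ^ 3 = a * β ^ 2 + b * β + c) (hw : w ^ 3 = a * w ^ 2 + b * w + c)
    (him : w.im ≠ 0) {J : ℕ} (hJ : 3 ≤ J) (y : Fin 3 → ℤ) (x : ℕ → ℝ)
    (h1 : ∑ j ∈ Finset.range J, x j * β ^ j = vr β y)
    (h2 : ∑ j ∈ Finset.range J, (x j : ℂ) * w ^ j = vc w y)
    (hx : ∀ j, 0 ≤ x j)
    (hbig : ∀ i : Fin 3, ∑ j ∈ Finset.Ico 3 J, |((pw a b c j i : ℤ) : ℝ)| ≤ x i) :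
    ∃ n : ℕ → ℕ, ∑ j ∈ Finset.range J, (n j : ℝ) * β ^ j = vr β y := by
  -- real coordinates
  have hpr : ∀ j, β ^ j = pw a b c j 0 + pw a b c j 1 * β + pw a b c j 2 * β ^ 2 :=
    fun j => (vr_pw hβ j).symm
  have hpc : ∀ j, w ^ j = pw a b c j 0 + pw a b c j 1 * w + pw a b c j 2 * w ^ 2 :=
    fun j => (vc_pw hw j).symm
  have hsplit : ∀ {R : Type} [AddCommMonoid R] (g : ℕ → R), ∑ j ∈ Finset.range J, g j =
      g 0 + g 1 + g 2 + ∑ j ∈ Finset.Ico 3 J, g j := by
    intro R _ g
    rw [← Finset.sum_range_add_sum_Ico g hJ]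
    congr 1
    simp [Finset.sum_range_succ]
  have hD : ∀ i : Fin 3, (y i : ℝ) = x i + ∑ j ∈ Finset.Ico 3 J, (pw a b c j i : ℝ) * x j := by
    set D : Fin 3 → ℝ := fun i => x i + ∑ j ∈ Finset.Ico 3 J, (pw a b c j i : ℝ) * x j - y i with hDdef
    have hr : D 0 + D 1 * β + D 2 * β ^ 2 = 0 := by
      rw [hsplit] at h1
      have e1 : ∑ j ∈ Finset.Ico 3 J, x j * β ^ j =
          (∑ j ∈ Finset.Ico 3 J, (pw a b c j 0 : ℝ) * x j) +
          (∑ j ∈ Finset.Ico 3 J, (pw a b c j 1 : ℝ) * x j) * β +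
          (∑ j ∈ Finset.Ico 3 J, (pw a b c j 2 : ℝ) * x j) * β ^ 2 := by
        rw [Finset.sum_mul, Finset.sum_mul, ← Finset.sum_add_distrib, ← Finset.sum_add_distrib]
        refine Finset.sum_congr rfl fun j _ => ?_
        rw [hpr j]; ring
      rw [e1] at h1
      unfold vr at h1
      simp only [hDdef, Fin.val_zero, Fin.val_one, Fin.val_two]
      linear_combination h1
    have hc : (D 0 : ℂ) + D 1 * w + D 2 * w ^ 2 = 0 := by
      rw [hsplit] at h2
      have e1 : ∑ j ∈ Finset.Ico 3 J, (x j : ℂ) * w ^ j =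
          (∑ j ∈ Finset.Ico 3 J, (pw a b c j 0 : ℂ) * x j) +
          (∑ j ∈ Finset.Ico 3 J, (pw a b c j 1 : ℂ) * x j) * w +
          (∑ j ∈ Finset.Ico 3 J, (pw a b c j 2 : ℂ) * x j) * w ^ 2 := by
        rw [Finset.sum_mul, Finset.sum_mul, ← Finset.sum_add_distrib, ← Finset.sum_add_distrib]
        refine Finset.sum_congr rfl fun j _ => ?_
        rw [hpc j]; ring
      rw [e1] at h2
      unfold vc at h2
      simp only [hDdef, Fin.val_zero, Fin.val_one, Fin.val_two]
      push_cast
      linear_combination h2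
    obtain ⟨d0, d1, d2⟩ := unique him hr hc
    intro i
    have hi : D i = 0 := by fin_cases i <;> assumption
    have : D i = x i + ∑ j ∈ Finset.Ico 3 J, (pw a b c j i : ℝ) * x j - y i := rfl
    linarith
  -- the integers
  set m : ℕ → ℤ := fun j => ⌊x j⌋ with hm
  set N : Fin 3 → ℤ := fun i => y i - ∑ j ∈ Finset.Ico 3 J, pw a b c j i * m j with hN
  have hNpos : ∀ i, 0 ≤ N i := by
    intro i
    have h3 : (0:ℝ) ≤ (N i : ℝ) := by
      have e1 : (N i : ℝ) = x i + ∑ j ∈ Finset.Ico 3 J, (pw a b c j i : ℝ) * (x j - m j) := by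
        simp only [hN]
        push_cast
        rw [hD i]
        simp_rw [mul_sub]
        rw [Finset.sum_sub_distrib]; ring
      have e2 : -∑ j ∈ Finset.Ico 3 J, |((pw a b c j i : ℤ) : ℝ)| ≤
          ∑ j ∈ Finset.Ico 3 J, (pw a b c j i : ℝ) * (x j - m j) := by
        rw [← Finset.sum_neg_distrib]
        apply Finset.sum_le_sum
        intro j _
        have f1 : 0 ≤ x j - m j := by simp only [hm]; linarith [Int.floor_le (x j)]
        have f2 : x j - m j ≤ 1 := by simp only [hm]; linarith [Int.lt_floor_add_one (x j)]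
        have f3 := neg_abs_le ((pw a b c j i : ℤ) : ℝ)
        have f4 := abs_nonneg ((pw a b c j i : ℤ) : ℝ)
        nlinarith
      rw [e1]
      linarith [hbig i]
    exact_mod_cast h3
  have hmpos : ∀ j, 0 ≤ m j := fun j => Int.floor_nonneg.mpr (hx j)
  refine ⟨fun j => if j = 0 then (N 0).toNat else if j = 1 then (N 1).toNat else
    if j = 2 then (N 2).toNat else (m j).toNat, ?_⟩
  rw [hsplit]
  simp only [if_true, one_ne_zero, if_false, OfNat.ofNat_ne_zero, OfNat.ofNat_ne_one]
  have g : ∀ z : ℤ, 0 ≤ z → ((z.toNat : ℕ) : ℝ) = z := by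
    intro z hz
    have := Int.toNat_of_nonneg hz
    exact_mod_cast congrArg (Int.cast : ℤ → ℝ) this
  rw [g _ (hNpos 0), g _ (hNpos 1), g _ (hNpos 2)]
  have e3 : ∑ j ∈ Finset.Ico 3 J, (((if j = 0 then (N 0).toNat else if j = 1 then (N 1).toNat else
      if j = 2 then (N 2).toNat else (m j).toNat : ℕ)) : ℝ) * β ^ j =
      (∑ j ∈ Finset.Ico 3 J, (pw a b c j 0 : ℝ) * m j) +
      (∑ j ∈ Finset.Ico 3 J, (pw a b c j 1 : ℝ) * m j) * β +
      (∑ j ∈ Finset.Ico 3 J, (pw a b c j 2 : ℝ) * m j) * β ^ 2 := by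
    rw [Finset.sum_mul, Finset.sum_mul, ← Finset.sum_add_distrib, ← Finset.sum_add_distrib]
    refine Finset.sum_congr rfl fun j hj => ?_
    have := (Finset.mem_Ico.mp hj).1
    rw [if_neg (by omega), if_neg (by omega), if_neg (by omega), g _ (hmpos j), hpr j]
    ring
  rw [e3]
  simp only [hN, vr]
  push_cast
  ring

/-- Every positive element of the order becomes a nonnegative integer combination of
`1, β, …, β^(J-1)` after multiplication by a large power of `β`. -/
lemma main_cone (hβ1 : 1 < β) (hβ : β ^ 3 = a * β ^ 2 + b * β + c)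
    (hw : w ^ 3 = a * w ^ 2 + b * w + c) (him : w.im ≠ 0) (hw1 : ‖w‖ < 1) :
    ∃ J : ℕ, ∀ y : Fin 3 → ℤ, 0 < vr β y → ∀ᶠ k : ℕ in atTop, ∃ n : ℕ → ℕ,
      ∑ j ∈ Finset.range J, (n j : ℝ) * β ^ j = β ^ k * vr β y := by
  obtain ⟨J, t, hJ, ht, hrel⟩ := exists_pos_rel him
  refine ⟨J, fun y hy => ?_⟩
  have hβ0 : 0 < β := by linarith
  have hne : w - (β : ℂ) ≠ 0 := by
    intro h
    apply him
    have : w = (β : ℂ) := sub_eq_zero.mp h
    rw [this]; exact Complex.ofReal_im β
  set τ : ℝ := ∑ j ∈ Finset.range J, t j * β ^ j with hτ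
  have hτ0 : 0 < τ := Finset.sum_pos (fun j _ => mul_pos (ht j) (by positivity))
    ⟨0, Finset.mem_range.mpr (by omega)⟩
  set κ : ℕ → ℂ := fun k => w ^ k * vc w y / (w - β) with hκ
  set u : ℕ → ℝ := fun k => (κ k).im / w.im with hu
  set s : ℕ → ℝ := fun k => (κ k).re - u k * w.re with hs
  have hus : ∀ k, (u k : ℂ) * w + s k = κ k := by
    intro k
    apply Complex.ext
    · simp [hs]
    · simp only [Complex.add_im, Complex.mul_im, Complex.ofReal_re, Complex.ofReal_im, zero_mul,
        add_zero, hu]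
      field_simp
  have hκ0 : Tendsto κ atTop (𝓝 0) := by
    have h1 : Tendsto (fun k : ℕ => w ^ k) atTop (𝓝 0) := tendsto_pow_atTop_nhds_zero_of_norm_lt_one hw1
    have h2 := (h1.mul_const (vc w y)).div_const (w - β)
    simpa using h2
  have hu0 : Tendsto u atTop (𝓝 0) := by
    have := ((Complex.continuous_im.tendsto 0).comp hκ0).div_const w.im
    simpa using this
  have hs0 : Tendsto s atTop (𝓝 0) := by
    have h1 := ((Complex.continuous_re.tendsto 0).comp hκ0).sub (hu0.mul_const w.re)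
    simpa using h1
  -- coefficients
  set e : ℕ → ℕ → ℝ := fun k j => if j = 0 then -β * s k else if j = 1 then s k - β * u k else
    if j = 2 then u k else 0 with he
  set x : ℕ → ℕ → ℝ := fun k j => β ^ k * vr β y / τ * t j + e k j with hx
  have hlarge : ∀ i : ℕ, i < 3 → Tendsto (fun k => x k i) atTop atTop := by
    intro i hi
    have h1 : Tendsto (fun k : ℕ => β ^ k * vr β y / τ * t i) atTop atTop := by
      have h2 : Tendsto (fun k : ℕ => β ^ k) atTop atTop := tendsto_pow_atTop_atTop_of_one_lt hβ1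
      exact ((h2.atTop_mul_const hy).atTop_div_const hτ0).atTop_mul_const (ht i)
    have h2 : Tendsto (fun k => e k i) atTop (𝓝 0) := by
      interval_cases i
      · have := hs0.const_mul (-β)
        simpa [he] using this
      · have := hs0.sub (hu0.const_mul β)
        simpa [he] using this
      · simpa [he] using hu0
    exact h1.atTop_add h2
  have hev : ∀ i : Fin 3, ∀ᶠ k in atTop,
      ∑ j ∈ Finset.Ico 3 J, |((pw a b c j i : ℤ) : ℝ)| ≤ x k i :=
    fun i => (hlarge i i.2).eventually_ge_atTop _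
  have hev' : ∀ᶠ k in atTop, ∀ i : Fin 3,
      ∑ j ∈ Finset.Ico 3 J, |((pw a b c j i : ℤ) : ℝ)| ≤ x k i := eventually_all.mpr hev
  filter_upwards [hev'] with k hk
  rw [← vr_iter hβ]
  apply rounding hβ hw him hJ _ (x k) _ _ _ hk
  · rw [vr_iter hβ]
    simp only [hx, add_mul, Finset.sum_add_distrib]
    have e1 : ∑ j ∈ Finset.range J, β ^ k * vr β y / τ * t j * β ^ j = β ^ k * vr β y := by
      simp_rw [mul_assoc, ← Finset.mul_sum]
      rw [← hτ]; field_simp
    have e2 : ∑ j ∈ Finset.range J, e k j * β ^ j = 0 := by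
      rw [← Finset.sum_subset (Finset.range_subset_range.mpr hJ)]
      · simp only [Finset.sum_range_succ, Finset.sum_range_zero, he]
        norm_num
        ring
      · intro j _ hj
        rw [Finset.mem_range] at hj
        simp only [he]
        rw [if_neg (by omega), if_neg (by omega), if_neg (by omega), zero_mul]
    rw [e1, e2, add_zero]
  · rw [vc_iter hw]
    simp only [hx, Complex.ofReal_add, add_mul, Finset.sum_add_distrib]
    have e1 : ∑ j ∈ Finset.range J, ((β ^ k * vr β y / τ * t j : ℝ) : ℂ) * w ^ j = 0 := by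
      have : ∀ j, ((β ^ k * vr β y / τ * t j : ℝ) : ℂ) * w ^ j =
          ((β ^ k * vr β y / τ : ℝ) : ℂ) * ((t j : ℂ) * w ^ j) := by
        intro j; push_cast; ring
      simp_rw [this, ← Finset.mul_sum]
      rw [hrel, mul_zero]
    have e2 : ∑ j ∈ Finset.range J, (e k j : ℂ) * w ^ j = w ^ k * vc w y := by
      rw [← Finset.sum_subset (Finset.range_subset_range.mpr hJ)]
      · simp only [Finset.sum_range_succ, Finset.sum_range_zero, he]
        norm_num
        have h3 := hus k
        have h4 : κ k * (w - β) = w ^ k * vc w y := by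
          simp only [hκ]; field_simp
        rw [← h4, ← h3]
        ring
      · intro j _ hj
        rw [Finset.mem_range] at hj
        simp only [he]
        rw [if_neg (by omega), if_neg (by omega), if_neg (by omega)]
        simp
    rw [e1, e2, zero_add]
  · intro j
    by_cases hj : j < 3
    · have := hk ⟨j, hj⟩
      refine le_trans ?_ this
      exact Finset.sum_nonneg fun _ _ => abs_nonneg _
    · simp only [hx, he]
      rw [if_neg (by omega), if_neg (by omega), if_neg (by omega), add_zero]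
      have := ht j
      positivity

end Pool.Agent.X86.PF
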